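import Pool.Agent.Q94.DCM

/-! MP_dcbbce_an: a bounded domain of the plane such that, for every `q ≥ 7`, no seminorm of norm
one maximises `λ_H T_H ^ q`. The eigenvalue `lam` and the torsional rigidity `tors` are the
infimum and the supremum over the Lipschitz functions with compact support in the domain, a dense
subclass of `H^1_0(Ω)` which gives the same two numbers. -/

namespace Pool.Agent.Results.MP_dcbbce_an.NoMaximizer

open MeasureTheory Set Pool.Agent.MaxSemi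

theorem result : ∃ Ω : Set (ℝ × ℝ), IsOpen Ω ∧ Bornology.IsBounded Ω ∧ IsConnected Ω ∧
    (∀ H : Seminorm ℝ (ℝ × ℝ), UnitSemi H →
      (∀ u, Adm Ω u → u ≠ 0 → 0 < energy Ω H u) ∧
      BddAbove {t : ℝ | ∃ u, Adm Ω u ∧ u ≠ 0 ∧ t = (∫ z in Ω, u z) ^ 2 / energy Ω H u}) ∧
    ∀ q : ℝ, 7 ≤ q → BddAbove (values q Ω) ∧
      ∀ H : Seminorm ℝ (ℝ × ℝ), UnitSemi H → Fq q Ω H < sSup (values q Ω) :=
  ⟨Om, Om_open, Om_bdd, Om_conn, fun _ hH => ⟨fun _ hu h0 => energy_pos hH hu h0, tors_bdd hH⟩,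
    fun _ hq => main hq⟩

end Pool.Agent.Results.MP_dcbbce_an.NoMaximizer
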